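import Pool.Agent.Helper55.TM.Basic

/-!
# MP_fc8395_an : module CF (the crossing lemma)
-/

set_option autoImplicit false

open Real

namespace TM

theorem CF_core {e θ ψ A : ℝ} (he : 0 < e) (hθ0 : 0 < θ) (hθ1 : θ < π / 2) (hψ0 : 0 < ψ)
    (hψ1 : ψ < π) (hA : 0 < A) (hA2 : A ^ 2 * sin θ ^ 2 = e ^ 2 + sin θ ^ 2) {i j : ℕ}
    (hi : 0 < i) (hij : i < j) (h0 : |A * cos ψ| ≤ 1) (hci : 1 ≤ |A * cos (ψ + i * θ)|)
    (hcj : (A * cos (ψ + j * θ)) ^ 2 < 1 + e ^ 2) :
    e ^ 2 * cos θ * sin (j * θ) /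
      (sin θ * ((A * sin θ * sin ψ) * (A * sin θ * sin (ψ + j * θ)))) ≤ j - 2 := by
  have hb : 0 < sin θ := sin_pos_of_pos_of_lt_pi hθ0 (by linarith [pi_pos])
  have hy : 0 < cos θ := cos_pos_of_mem_Ioo ⟨by linarith [pi_pos], hθ1⟩
  have hby : sin θ ^ 2 + cos θ ^ 2 = 1 := sin_sq_add_cos_sq θ
  have hj2 : (2 : ℝ) ≤ j := by exact_mod_cast (by omega : 2 ≤ j)
  set b := sin θ with hbdef
  set y := cos θ with hydef
  set D0 := A * b * sin ψ with hD0
  set Dj := A * b * sin (ψ + j * θ) with hDj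
  have hD0pos : 0 < D0 := mul_pos (mul_pos hA hb) (sin_pos_of_pos_of_lt_pi hψ0 hψ1)
  have hD0sq : e ^ 2 ≤ D0 ^ 2 := by
    have h1 : D0 ^ 2 = A ^ 2 * b ^ 2 - b ^ 2 * (A * cos ψ) ^ 2 := by
      have := sin_sq_add_cos_sq ψ
      rw [hD0]
      have h2 : sin ψ ^ 2 = 1 - cos ψ ^ 2 := by linarith
      calc (A * b * sin ψ) ^ 2 = A ^ 2 * b ^ 2 * sin ψ ^ 2 := by ring
        _ = _ := by rw [h2]; ring
    have h2 : (A * cos ψ) ^ 2 ≤ 1 := by
      rw [← sq_abs]; nlinarith [abs_nonneg (A * cos ψ)]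
    rw [h1, hA2]
    nlinarith [sq_nonneg b]
  have hD0e : e ≤ D0 := by
    by_contra h
    push Not at h
    nlinarith
  have hDjsq : e ^ 2 * y ^ 2 < Dj ^ 2 := by
    have h1 : Dj ^ 2 = A ^ 2 * b ^ 2 - b ^ 2 * (A * cos (ψ + j * θ)) ^ 2 := by
      have := sin_sq_add_cos_sq (ψ + j * θ)
      rw [hDj]
      have h2 : sin (ψ + j * θ) ^ 2 = 1 - cos (ψ + j * θ) ^ 2 := by linarith
      calc (A * b * sin (ψ + j * θ)) ^ 2 = A ^ 2 * b ^ 2 * sin (ψ + j * θ) ^ 2 := by ring
        _ = _ := by rw [h2]; ring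
    rw [h1, hA2]
    have h3 : b ^ 2 * (A * cos (ψ + j * θ)) ^ 2 < b ^ 2 * (1 + e ^ 2) :=
      mul_lt_mul_of_pos_left hcj (pow_pos hb 2)
    have h4 : y ^ 2 = 1 - b ^ 2 := by linarith
    rw [h4]
    nlinarith
  have hDjabs : e * y < |Dj| := by
    have h1 : (e * y) ^ 2 < |Dj| ^ 2 := by rw [sq_abs]; nlinarith
    exact lt_of_pow_lt_pow_left₀ 2 (abs_nonneg _) h1
  have hDjne : Dj ≠ 0 := by
    intro h
    rw [h, abs_zero] at hDjabs
    nlinarith [mul_pos he hy]
  by_cases hS : sin (j * θ) * Dj ≤ 0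
  · -- the correction is not positive
    have : e ^ 2 * y * sin (j * θ) / (b * (D0 * Dj)) ≤ 0 := by
      have h1 : e ^ 2 * y * sin (j * θ) / (b * (D0 * Dj)) =
          (e ^ 2 * y / (b * D0)) * (sin (j * θ) * Dj / Dj ^ 2) := by
        field_simp
      rw [h1]
      apply mul_nonpos_of_nonneg_of_nonpos
      · positivity
      · exact div_nonpos_of_nonpos_of_nonneg hS (sq_nonneg _)
    linarith
  · push Not at hS
    by_cases hjθ : π < j * θ
    · -- large angle
      have hbound : e ^ 2 * y * sin (j * θ) / (b * (D0 * Dj)) ≤ |sin (j * θ)| / b := by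
        refine (le_abs_self _).trans ?_
        rw [abs_div, abs_mul, abs_mul, abs_mul, abs_mul, abs_of_pos hb, abs_of_pos hD0pos,
          abs_of_pos (by positivity : 0 < e ^ 2), abs_of_pos hy]
        have h1 : e ^ 2 * y ≤ D0 * |Dj| := by
          calc e ^ 2 * y = e * (e * y) := by ring
            _ ≤ D0 * |Dj| := mul_le_mul hD0e hDjabs.le (by positivity) hD0pos.le
        have h2 : 0 < D0 * |Dj| := mul_pos hD0pos (abs_pos.2 hDjne)
        rw [div_le_div_iff₀ (mul_pos hb h2) hb]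
        calc e ^ 2 * y * |sin (j * θ)| * b ≤ (D0 * |Dj|) * |sin (j * θ)| * b := by
              gcongr
          _ = |sin (j * θ)| * (b * (D0 * |Dj|)) := by ring
      refine hbound.trans ?_
      have hj3 : 3 ≤ j := by
        by_contra h
        have : j = 2 := by omega
        subst this
        push_cast at hjθ
        linarith
      rcases Nat.lt_or_ge j 4 with hj4 | hj4
      · have : j = 3 := by omega
        subst this
        have h3 : sin (((3 : ℕ) : ℝ) * θ) = 3 * b - 4 * b ^ 3 := by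
          push_cast; exact sin_three_mul θ
        have hneg : sin (((3 : ℕ) : ℝ) * θ) < 0 := by
          have : sin (((3 : ℕ) : ℝ) * θ - π) > 0 := by
            apply sin_pos_of_pos_of_lt_pi
            · linarith
            · push_cast; linarith [pi_pos]
          rw [sin_sub_pi] at this
          linarith
        rw [abs_of_neg hneg, h3, div_le_iff₀ hb]
        have hb1 : b ≤ 1 := sin_le_one θ
        push_cast
        nlinarith [pow_pos hb 2, pow_pos hb 3]
      · have hjor : 2 / π * θ ≤ b := mul_le_sin hθ0.le hθ1.le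
        have hjR : (4 : ℝ) ≤ j := by exact_mod_cast hj4
        have hjpos : (0 : ℝ) < j := by linarith
        have h1 : 2 / (j : ℝ) ≤ b := by
          refine le_trans ?_ hjor
          rw [div_mul_eq_mul_div, div_le_div_iff₀ hjpos pi_pos]
          nlinarith
        rw [div_le_iff₀ hb]
        have h2 : |sin (j * θ)| ≤ 1 := abs_sin_le_one _
        have h3 : (j - 2 : ℝ) * (2 / j) ≥ 1 := by
          rw [ge_iff_le, mul_div_assoc', le_div_iff₀ hjpos]
          linarith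
        have h4 : (j - 2 : ℝ) * (2 / j) ≤ (j - 2) * b :=
          mul_le_mul_of_nonneg_left h1 (by linarith)
        linarith
    · -- small angle: contradiction
      exfalso
      push Not at hjθ
      have hjθ0 : 0 < j * θ := by positivity
      have hSnn : 0 ≤ sin (j * θ) := sin_nonneg_of_nonneg_of_le_pi hjθ0.le hjθ
      have hSpos : 0 < sin (j * θ) := lt_of_le_of_ne hSnn (by
        intro h; rw [← h, zero_mul] at hS; exact lt_irrefl _ hS)
      have hDjpos : 0 < Dj := by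
        by_contra h
        push Not at h
        nlinarith
      have hsinβ : 0 < sin (ψ + j * θ) := by
        have h1 : 0 < (A * b) * sin (ψ + j * θ) := hDjpos
        exact (mul_pos_iff_of_pos_left (mul_pos hA hb)).1 h1
      have hβ : ψ + j * θ < π := by
        by_contra h
        push Not at h
        have h1 : sin (ψ + j * θ - π) ≥ 0 := by
          apply sin_nonneg_of_nonneg_of_le_pi
          · linarith
          · linarith
        rw [sin_sub_pi] at h1
        linarith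
      have hiR : (i : ℝ) + 1 ≤ j := by exact_mod_cast hij
      have hi1 : (1 : ℝ) ≤ i := by exact_mod_cast hi
      set γ := ψ + i * θ with hγ
      have hγβ : γ + θ ≤ ψ + j * θ := by
        have : (i + 1 : ℝ) * θ ≤ j * θ := mul_le_mul_of_nonneg_right hiR hθ0.le
        rw [hγ]; nlinarith
      have hψγ : ψ < γ := by rw [hγ]; nlinarith
      have hγπ : γ < π := by linarith
      have hcosγ : cos γ < cos ψ := cos_lt_cos_of_nonneg_of_le_pi hψ0.le hγπ.le hψγ
      have hAcosγ : A * cos γ ≤ -1 := by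
        rcases le_abs'.1 hci with h | h
        · exact h
        · exfalso
          have h1 : A * cos γ < A * cos ψ := mul_lt_mul_of_pos_left hcosγ hA
          have h2 : A * cos ψ ≤ 1 := (le_abs_self _).trans h0
          linarith
      have hcosγneg : cos γ < 0 := by
        by_contra h
        push Not at h
        nlinarith
      have hγ2 : π / 2 < γ := by
        by_contra h
        push Not at h
        have : 0 ≤ cos γ := cos_nonneg_of_mem_Icc ⟨by linarith [pi_pos], h⟩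
        linarith
      have hsinγ0 : 0 < sin γ := sin_pos_of_pos_of_lt_pi (by linarith) hγπ
      have hsinγ : A * b * sin γ ≤ e := by
        have h1 : (A * b * sin γ) ^ 2 ≤ e ^ 2 := by
          have h2 : sin γ ^ 2 = 1 - cos γ ^ 2 := by linarith [sin_sq_add_cos_sq γ]
          have h3 : (A * b * sin γ) ^ 2 = A ^ 2 * b ^ 2 - b ^ 2 * (A * cos γ) ^ 2 := by
            calc (A * b * sin γ) ^ 2 = A ^ 2 * b ^ 2 * sin γ ^ 2 := by ring
              _ = _ := by rw [h2]; ring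
          rw [h3, hA2]
          have h4 : 1 ≤ (A * cos γ) ^ 2 := by nlinarith
          nlinarith [pow_pos hb 2]
        exact le_of_sq_le_sq h1 he.le
      have hsum : A * b * sin (γ + θ) ≤ e * y - b ^ 2 := by
        rw [sin_add]
        have h1 : A * b * (sin γ * cos θ + cos γ * sin θ) =
            (A * b * sin γ) * y + b ^ 2 * (A * cos γ) := by
          rw [← hydef, ← hbdef]; ring
        rw [h1]
        have h2 : (A * b * sin γ) * y ≤ e * y := mul_le_mul_of_nonneg_right hsinγ hy.le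
        have h3 : b ^ 2 * (A * cos γ) ≤ b ^ 2 * (-1) := mul_le_mul_of_nonneg_left hAcosγ (sq_nonneg b)
        linarith
      have hdec : sin (ψ + j * θ) ≤ sin (γ + θ) := by
        have h1 : sin (ψ + j * θ) = cos (ψ + j * θ - π / 2) := by rw [cos_sub_pi_div_two]
        have h2 : sin (γ + θ) = cos (γ + θ - π / 2) := by rw [cos_sub_pi_div_two]
        rw [h1, h2]
        exact cos_le_cos_of_nonneg_of_le_pi (by linarith) (by linarith) (by linarith)
      have hfin : Dj ≤ e * y - b ^ 2 :=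
        (mul_le_mul_of_nonneg_left hdec (mul_pos hA hb).le).trans hsum
      rw [abs_of_pos hDjpos] at hDjabs
      nlinarith [pow_pos hb 2]

/-- the correction term -/
noncomputable def CFR (e θ ψ A : ℝ) (j : ℕ) : ℝ :=
  e ^ 2 * cos θ * sin (j * θ) / (sin θ * ((A * sin θ * sin ψ) * (A * sin θ * sin (ψ + j * θ))))

/-- shift of `ψ` by `π` -/
theorem CF_shift (e θ ψ A : ℝ) (j : ℕ) : CFR e θ (ψ + π) A j = CFR e θ ψ A j := by
  unfold CFR
  have h1 : ψ + π + j * θ = ψ + j * θ + π := by ring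
  rw [h1, sin_add_pi, sin_add_pi]
  ring

/-- a statement for all `ψ` that is invariant under the shift by `π` -/
theorem CF_reduce {e θ A : ℝ} (he : 0 < e) (hθ0 : 0 < θ) (hθ1 : θ < π / 2) (hA : 0 < A)
    (hA2 : A ^ 2 * sin θ ^ 2 = e ^ 2 + sin θ ^ 2) {i j : ℕ}
    (hi : 0 < i) (hij : i < j) (ψ : ℝ) (hψ : sin ψ ≠ 0) (h0 : |A * cos ψ| ≤ 1)
    (hci : 1 ≤ |A * cos (ψ + i * θ)|) (hcj : (A * cos (ψ + j * θ)) ^ 2 < 1 + e ^ 2) :
    CFR e θ ψ A j ≤ j - 2 := by
  -- move `ψ` into `(0, π)`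
  have hcos : ∀ (m : ℤ) (x : ℝ), |A * cos (x + m * π)| = |A * cos x| := by
    intro m x
    rw [cos_add_int_mul_pi, abs_mul, abs_mul, abs_mul, abs_zpow, abs_neg, abs_one, one_zpow,
      one_mul]
  have hsh : ∀ m : ℤ, CFR e θ (ψ + m * π) A j = CFR e θ ψ A j := by
    intro m
    induction m using Int.induction_on with
    | zero => simp
    | succ m ih =>
      rw [← ih, ← CF_shift e θ (ψ + (m : ℤ) * π)]
      congr 1
      push_cast; ring
    | pred m ih =>
      rw [← ih, ← CF_shift e θ (ψ + ((-(m : ℤ) - 1 : ℤ) : ℝ) * π)]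
      congr 1
      push_cast; ring
  set m : ℤ := -⌊ψ / π⌋ with hm
  have k1 := hsh m
  have k2 := hcos m ψ
  have k3 : ∀ n : ℕ, |A * cos (ψ + m * π + n * θ)| = |A * cos (ψ + n * θ)| := by
    intro n
    have : ψ + m * π + n * θ = ψ + n * θ + m * π := by ring
    rw [this, hcos]
  have hπ := pi_pos
  have hlo : 0 ≤ ψ + m * π := by
    have := Int.floor_le (ψ / π)
    rw [le_div_iff₀ hπ] at this
    rw [hm]; push_cast; linarith
  have hhi : ψ + m * π < π := by
    have := Int.lt_floor_add_one (ψ / π)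
    rw [div_lt_iff₀ hπ] at this
    rw [hm]; push_cast; linarith
  have hne : ψ + m * π ≠ 0 := by
    intro h
    apply hψ
    have : ψ = -(m * π) := by linarith
    rw [this, sin_neg, sin_int_mul_pi, neg_zero]
  have hpos : 0 < ψ + m * π := lt_of_le_of_ne hlo (Ne.symm hne)
  rw [← k1]
  refine CF_core he hθ0 hθ1 hpos hhi hA hA2 hi hij ?_ ?_ ?_
  · rw [k2]; exact h0
  · rw [k3]; exact hci
  · rw [← sq_abs, k3, sq_abs]; exact hcj

theorem CF_reflect (e θ ψ A : ℝ) (j : ℕ) : CFR e (π - θ) (-ψ) A j = CFR e θ ψ A j := by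
  unfold CFR
  have h1 : -ψ + j * (π - θ) = -(ψ + j * θ) + j * π := by ring
  have h2 : (j : ℝ) * (π - θ) = -(j * θ) + j * π := by ring
  rw [h1, h2, cos_pi_sub, sin_pi_sub, sin_neg, sin_add_nat_mul_pi, sin_add_nat_mul_pi, sin_neg,
    sin_neg]
  rcases neg_one_pow_eq_or ℝ j with h | h
  · rw [h]; ring
  · rw [h]; ring

theorem CF_reflect_cos (θ ψ A : ℝ) (n : ℕ) :
    |A * cos (-ψ + n * (π - θ))| = |A * cos (ψ + n * θ)| := by
  have h1 : -ψ + n * (π - θ) = -(ψ + n * θ) + n * π := by ring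
  rw [h1, cos_add_nat_mul_pi, cos_neg, abs_mul, abs_mul, abs_mul, abs_pow, abs_neg, abs_one,
    one_pow, one_mul]

theorem CF_all {e θ A : ℝ} (he : 0 < e) (hθ0 : 0 < θ) (hθ1 : θ < π) (hA : 0 < A)
    (hA2 : A ^ 2 * sin θ ^ 2 = e ^ 2 + sin θ ^ 2) {i j : ℕ}
    (hi : 0 < i) (hij : i < j) (ψ : ℝ) (hψ : sin ψ ≠ 0) (h0 : |A * cos ψ| ≤ 1)
    (hci : 1 ≤ |A * cos (ψ + i * θ)|) (hcj : (A * cos (ψ + j * θ)) ^ 2 < 1 + e ^ 2) :
    CFR e θ ψ A j ≤ j - 2 := by
  have hj2 : (2 : ℝ) ≤ j := by exact_mod_cast (by omega : 2 ≤ j)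
  rcases lt_trichotomy θ (π / 2) with h | h | h
  · exact CF_reduce he hθ0 h hA hA2 hi hij ψ hψ h0 hci hcj
  · unfold CFR
    rw [h, cos_pi_div_two]
    simp only [mul_zero, zero_mul, zero_div]
    linarith
  · rw [← CF_reflect]
    refine CF_reduce he (by linarith) (by linarith) hA (by rw [sin_pi_sub]; exact hA2) hi hij (-ψ)
      (by rw [sin_neg]; exact neg_ne_zero.2 hψ) (by rw [cos_neg]; exact h0) ?_ ?_
    · rw [CF_reflect_cos]; exact hci
    · rw [← sq_abs, CF_reflect_cos, sq_abs]; exact hcj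

theorem CFI_Ch_neg_one (y : ℝ) : Ch (-1) y = 0 := by
  unfold Ch; simp

theorem CFI_Ch_zero (y : ℝ) : Ch 0 y = 1 := by
  unfold Ch; simp

theorem CFI_Ch_rec (n : ℤ) (y : ℝ) : Ch (n + 2) y = 2 * y * Ch (n + 1) y - Ch n y := by
  unfold Ch
  rw [Polynomial.Chebyshev.U_add_two]
  simp

theorem CF_Ch_trig (θ : ℝ) (j : ℕ) : Ch (j - 1) (Real.cos θ) * Real.sin θ = Real.sin (j * θ) := by
  have key : ∀ j : ℕ, (Ch (j - 1) (cos θ) * sin θ = sin (j * θ)) ∧
      (Ch (((j + 1 : ℕ) : ℤ) - 1) (cos θ) * sin θ = sin (((j + 1 : ℕ) : ℝ) * θ)) := by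
    intro j
    induction j with
    | zero =>
      constructor
      · simp [CFI_Ch_neg_one]
      · simp [CFI_Ch_zero]
    | succ j ih =>
      refine ⟨ih.2, ?_⟩
      have h1 : (((j + 1 + 1 : ℕ) : ℤ) - 1) = ((j : ℤ) - 1) + 2 := by push_cast; ring
      have h2 : (((j + 1 : ℕ) : ℤ) - 1) = ((j : ℤ) - 1) + 1 := by push_cast; ring
      rw [h1, CFI_Ch_rec, ← h2]
      have e1 := ih.1
      have e2 := ih.2
      have e3 : sin (((j + 1 + 1 : ℕ) : ℝ) * θ) + sin (j * θ) =
          2 * cos θ * sin (((j + 1 : ℕ) : ℝ) * θ) := by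
        have a1 : ((j + 1 + 1 : ℕ) : ℝ) * θ = ((j + 1 : ℕ) : ℝ) * θ + θ := by push_cast; ring
        have a2 : (j : ℝ) * θ = ((j + 1 : ℕ) : ℝ) * θ - θ := by push_cast; ring
        rw [a1, a2, sin_add, sin_sub]; ring
      linear_combination 2 * cos θ * e2 - e1 - e3
  exact (key j).1

theorem CFI_t_rec (p : Pt) (j : ℕ) :
    (U^[j + 1] p).2.2 = p.2.1 * (U^[j] p).2.2 - D (U^[j] p) := by
  rw [← U_iter_x, x_eq, U_iter_y]

theorem CFI_D_rec (p : Pt) (j : ℕ) :
    D (U^[j + 1] p) = p.2.1 * D (U^[j] p) + (1 - p.2.1 ^ 2) * (U^[j] p).2.2 := by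
  rw [Function.iterate_succ_apply', D_U, U_iter_y]

theorem CF_fan_trig {e : ℝ} {p : Pt} (hp : p ∈ Surf e) (hy : |p.2.1| < 1) :
    ∃ θ ψ A : ℝ, 0 < θ ∧ θ < Real.pi ∧ p.2.1 = Real.cos θ ∧ 0 < A ∧
      A ^ 2 * Real.sin θ ^ 2 = e ^ 2 + Real.sin θ ^ 2 ∧
      ∀ j : ℕ, (U^[j] p).2.2 = A * Real.cos (ψ + j * θ) ∧
        D (U^[j] p) = A * Real.sin θ * Real.sin (ψ + j * θ) := by
  obtain ⟨h1, h2⟩ := abs_lt.1 hy
  set θ := arccos p.2.1 with hθ
  have hc : cos θ = p.2.1 := cos_arccos h1.le h2.le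
  have hsin : 0 < sin θ := by
    rw [hθ, sin_arccos]
    apply sqrt_pos.2
    nlinarith
  have hθ0 : 0 < θ := by
    by_contra h
    push Not at h
    have : θ = 0 := le_antisymm h (arccos_nonneg _)
    rw [this, sin_zero] at hsin
    exact lt_irrefl _ hsin
  have hθ1 : θ < π := by
    by_contra h
    push Not at h
    have : θ = π := le_antisymm (arccos_le_pi _) h
    rw [this, sin_pi] at hsin
    exact lt_irrefl _ hsin
  set b := sin θ with hb
  set z := (⟨p.2.2, D p / b⟩ : ℂ) with hz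
  set A := ‖z‖ with hA
  have hDsq := D_sq hp
  have hb2 : b ^ 2 = 1 - p.2.1 ^ 2 := by
    have := sin_sq_add_cos_sq θ
    rw [hc] at this
    linarith
  have hA2 : A ^ 2 = p.2.2 ^ 2 + (D p / b) ^ 2 := by
    rw [hA, ← Complex.normSq_eq_norm_sq, Complex.normSq_apply]
    simp only [hz]; ring
  have hAb : A ^ 2 * b ^ 2 = e ^ 2 + b ^ 2 := by
    rw [hA2]
    have : (p.2.2 ^ 2 + (D p / b) ^ 2) * b ^ 2 = p.2.2 ^ 2 * b ^ 2 + D p ^ 2 := by
      field_simp
    rw [this, hDsq, ← hb2]; ring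
  have hApos : 0 < A := by
    have h3 : 0 < A ^ 2 * b ^ 2 := by rw [hAb]; positivity
    have h4 : A ≠ 0 := by
      intro h; rw [h] at h3; simp at h3
    exact lt_of_le_of_ne (norm_nonneg _) (Ne.symm h4)
  refine ⟨θ, z.arg, A, hθ0, hθ1, hc.symm, hApos, hAb, ?_⟩
  intro j
  induction j with
  | zero =>
    simp only [Nat.cast_zero, zero_mul, add_zero, Function.iterate_zero, id_eq]
    constructor
    · rw [hA, Complex.norm_mul_cos_arg]
    · have h5 : A * sin z.arg = D p / b := by rw [hA, Complex.norm_mul_sin_arg]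
      calc D p = b * (D p / b) := by field_simp
        _ = b * (A * sin z.arg) := by rw [h5]
        _ = A * b * sin z.arg := by ring
  | succ j ih =>
    have e1 : z.arg + ((j + 1 : ℕ) : ℝ) * θ = (z.arg + j * θ) + θ := by push_cast; ring
    rw [CFI_t_rec, CFI_D_rec, ih.1, ih.2, e1, cos_add (z.arg + j * θ) θ, sin_add (z.arg + j * θ) θ,
      ← hb, ← hb2, hc]
    constructor <;> ring

theorem kap_cross {e : ℝ} (he : 0 < e) {p : Pt} (hp : p ∈ Surf e) (hy : |p.2.1| < 1)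
    (hz : |p.2.2| ≤ 1) {i j : ℕ} (hi : 0 < i) (hij : i < j) (hti : 1 ≤ |(U^[i] p).2.2|)
    (ht : |(U^[j] p).2.2| < V e) : 2 ≤ kap e p j := by
  obtain ⟨θ, ψ, A, hθ0, hθ1, hyθ, hA, hA2, hfan⟩ := CF_fan_trig hp hy
  have h0 := hfan 0
  simp only [Nat.cast_zero, zero_mul, add_zero, Function.iterate_zero, id_eq] at h0
  have hb : 0 < sin θ := sin_pos_of_pos_of_lt_pi hθ0 hθ1
  have hψ : sin ψ ≠ 0 := by
    intro h
    have hD0 : D p = 0 := by rw [h0.2, h, mul_zero]
    have h1 := D_sq hp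
    rw [hD0] at h1
    have hy2 : p.2.1 ^ 2 < 1 := by rw [← sq_abs]; nlinarith [abs_nonneg p.2.1]
    have hz2 : p.2.2 ^ 2 ≤ 1 := by rw [← sq_abs]; nlinarith [abs_nonneg p.2.2]
    have h2 : 0 ≤ (1 - p.2.1 ^ 2) * (1 - p.2.2 ^ 2) :=
      mul_nonneg (by linarith) (by linarith)
    nlinarith [pow_pos he 2]
  have hj := hfan j
  have hi' := hfan i
  have hcj : (A * cos (ψ + j * θ)) ^ 2 < 1 + e ^ 2 := by
    rw [← hj.1, ← V_sq, ← sq_abs]
    exact pow_lt_pow_left₀ ht (abs_nonneg _) two_ne_zero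
  have hmain := CF_all he hθ0 hθ1 hA hA2 hi hij ψ hψ (by rw [← h0.1]; exact hz)
    (by rw [← hi'.1]; exact hti) hcj
  have hkap : kap e p j = j - CFR e θ ψ A j := by
    unfold kap CFR
    have hCh := CF_Ch_trig θ j
    rw [hj.2, h0.2, hyθ, ← hCh]
    congr 1
    rw [show e ^ 2 * cos θ * (Ch (j - 1) (cos θ) * sin θ) =
      sin θ * (e ^ 2 * cos θ * Ch (j - 1) (cos θ)) by ring, mul_div_mul_left _ _ hb.ne']
  rw [hkap]
  linarith

end TM
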